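import Pool.Agent.H37.IS.Stm3

/-! Crew IS, batch 3, part NB1 (helper10): binomial ratios. -/

set_option autoImplicit false

namespace H37.IS

theorem nb1_aux (M j : ℕ) (hj : j ≤ M) (h : 2 * M + 3 ≤ 5 * j) (d : ℕ) (hd : d + 1 ≤ M) :
    (M - (d + 1)).choose (j - 1) * 5 ^ d ≤ 3 ^ d * M.choose j := by
  induction d with
  | zero =>
    obtain ⟨M', rfl⟩ : ∃ M', M = M' + 1 := ⟨M - 1, by omega⟩
    obtain ⟨j', rfl⟩ : ∃ j', j = j' + 1 := ⟨j - 1, by omega⟩
    simp only [zero_add, Nat.add_sub_cancel, pow_zero, mul_one, one_mul]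
    rw [Nat.choose_succ_succ]
    exact Nat.le_add_right _ _
  | succ d ih =>
    have ih' := ih (by omega)
    obtain ⟨n, hn⟩ : ∃ n, M - (d + 1) = n + 1 := ⟨M - (d + 1) - 1, by omega⟩
    have hn2 : M - (d + 1 + 1) = n := by omega
    rw [hn] at ih'
    rw [hn2]
    have h1 : n.choose (j - 1) * 5 ≤ 3 * (n + 1).choose (j - 1) := by
      have h2 := Nat.choose_mul_succ_eq n (j - 1)
      have h3 : 5 * (n + 1 - (j - 1)) ≤ 3 * (n + 1) := by omega
      refine Nat.le_of_mul_le_mul_right ?_ (Nat.succ_pos n)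
      calc n.choose (j - 1) * 5 * (n + 1) = (n.choose (j - 1) * (n + 1)) * 5 := by ring
        _ = ((n + 1).choose (j - 1) * (n + 1 - (j - 1))) * 5 := by rw [h2]
        _ = (n + 1).choose (j - 1) * (5 * (n + 1 - (j - 1))) := by ring
        _ ≤ (n + 1).choose (j - 1) * (3 * (n + 1)) := Nat.mul_le_mul_left _ h3
        _ = 3 * (n + 1).choose (j - 1) * (n + 1) := by ring
    calc n.choose (j - 1) * 5 ^ (d + 1) = (n.choose (j - 1) * 5) * 5 ^ d := by ring
      _ ≤ (3 * (n + 1).choose (j - 1)) * 5 ^ d := Nat.mul_le_mul_right _ h1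
      _ = 3 * ((n + 1).choose (j - 1) * 5 ^ d) := by ring
      _ ≤ 3 * (3 ^ d * M.choose j) := Nat.mul_le_mul_left _ ih'
      _ = 3 ^ (d + 1) * M.choose j := by ring

theorem NB1_proved : S_NB1 := by
  intro M j d h1 h2 h3 h4
  obtain ⟨e, rfl⟩ : ∃ e, d = e + 1 := ⟨d - 1, by omega⟩
  exact nb1_aux M j h3 h4 e h2

end H37.IS
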